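import Pool.Agent.H5.EG.Spec2

/-!
# MP_98cfca_co, Q1: linear algebra of truncations
-/

set_option autoImplicit false

namespace Pool.Agent.H187.EG

open Pool.Agent.H5.EG

/-- The linear relations between the truncations. -/
def Rel {ι : Type} (f : ι → ℕ → ℂ) (T : Finset ι) (m : ℕ) : Submodule ℂ ({t // t ∈ T} → ℂ) where
  carrier := {d | ∀ k < m, ∑ t : {t // t ∈ T}, d t * f t.1 k = 0}
  add_mem' := by
    intro a b ha hb k hk
    have h1 := ha k hk
    have h2 := hb k hk
    simp only [Pi.add_apply, add_mul, Finset.sum_add_distrib]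
    rw [h1, h2, add_zero]
  zero_mem' := by
    intro k _
    simp
  smul_mem' := by
    intro c a ha k hk
    have h1 := ha k hk
    simp only [Pi.smul_apply, smul_eq_mul, mul_assoc]
    rw [← Finset.mul_sum, h1, mul_zero]

theorem Rel_anti {ι : Type} (f : ι → ℕ → ℂ) (T : Finset ι) {m m' : ℕ} (h : m ≤ m') :
    Rel f T m' ≤ Rel f T m := fun _ hd k hk => hd k (hk.trans_le h)

theorem Rep_mono {ι : Type} {f : ι → ℕ → ℂ} {W : ℕ → ℂ} {T : Finset ι} {m m' : ℕ} (h : m ≤ m')
    (hr : Rep f W T m') : Rep f W T m := by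
  obtain ⟨c, hc⟩ := hr
  exact ⟨c, fun k hk => hc k (hk.trans_le h)⟩

/-- Two consecutive relation spaces agree. -/
theorem exists_stable {ι : Type} (f : ι → ℕ → ℂ) (T : Finset ι) (B : ℕ) (n : ℕ → ℕ)
    (hB : T.card ≤ B) (hn : Monotone n) : ∃ i ≤ B, Rel f T (n i) = Rel f T (n (i + 1)) := by
  by_contra hcon
  push Not at hcon
  have hlt : ∀ i ≤ B, Module.finrank ℂ (Rel f T (n (i + 1))) < Module.finrank ℂ (Rel f T (n i)) := by
    intro i hi
    apply Submodule.finrank_lt_finrank_of_lt
    exact lt_of_le_of_ne (Rel_anti f T (hn (Nat.le_succ i))) (hcon i hi).symm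
  have hsum : ∀ i ≤ B + 1, Module.finrank ℂ (Rel f T (n i)) + i ≤
      Module.finrank ℂ (Rel f T (n 0)) := by
    intro i
    induction i with
    | zero => intro _; omega
    | succ i ih =>
      intro hi
      have h1 := ih (by omega)
      have h2 := hlt i (by omega)
      omega
  have h1 := hsum (B + 1) le_rfl
  have h2 : Module.finrank ℂ (Rel f T (n 0)) ≤ T.card := by
    have h3 := Submodule.finrank_le (Rel f T (n 0))
    have h4 : Module.finrank ℂ ({t // t ∈ T} → ℂ) = T.card := by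
      rw [Module.finrank_fintype_fun_eq_card, Fintype.card_coe]
    omega
  omega

/-- A minimal representation. -/
theorem exists_minimal_rep {ι : Type} [DecidableEq ι] (f : ι → ℕ → ℂ) (W : ℕ → ℂ) (T : Finset ι)
    (N : ℕ) (h : Rep f W T N) :
    ∃ T' ⊆ T, Ind f T' N ∧ ∃ c : ι → ℂ, (∀ t ∈ T', c t ≠ 0) ∧
      ∀ k < N, W k = ∑ t ∈ T', c t * f t k := by
  classical
  obtain ⟨T', hT', hmin⟩ := Finset.exists_min_image
    (T.powerset.filter fun S => Rep f W S N) Finset.card
    ⟨T, Finset.mem_filter.mpr ⟨Finset.mem_powerset.mpr (Finset.Subset.refl T), h⟩⟩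
  rw [Finset.mem_filter, Finset.mem_powerset] at hT'
  obtain ⟨hsub, c, hc⟩ := hT'
  have key : ∀ t0 ∈ T', ¬ Rep f W (T'.erase t0) N := by
    intro t0 ht0 hr
    have h1 := hmin (T'.erase t0) (Finset.mem_filter.mpr
      ⟨Finset.mem_powerset.mpr ((Finset.erase_subset _ _).trans hsub), hr⟩)
    have h2 := Finset.card_erase_lt_of_mem ht0
    omega
  refine ⟨T', hsub, ?_, c, ?_, hc⟩
  · intro d hd t0 ht0
    by_contra hne
    apply key t0 ht0
    refine ⟨fun t => c t - c t0 / d t0 * d t, fun k hk => ?_⟩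
    have h1 : ∑ t ∈ T', (c t - c t0 / d t0 * d t) * f t k = W k := by
      rw [hc k hk]
      have h2 : ∀ t ∈ T', (c t - c t0 / d t0 * d t) * f t k =
          c t * f t k - c t0 / d t0 * (d t * f t k) := fun t _ => by ring
      rw [Finset.sum_congr rfl h2, Finset.sum_sub_distrib, ← Finset.mul_sum, hd k hk, mul_zero,
        sub_zero]
    rw [← h1, ← Finset.add_sum_erase T' _ ht0]
    have h3 : c t0 - c t0 / d t0 * d t0 = 0 := by
      rw [div_mul_cancel₀ _ hne, sub_self]
    rw [h3, zero_mul, zero_add]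
  · intro t0 ht0 h0
    apply key t0 ht0
    refine ⟨c, fun k hk => ?_⟩
    rw [hc k hk, ← Finset.add_sum_erase T' _ ht0, h0, zero_mul, zero_add]

theorem gap : S_gap := by
  intro ι _ _ f W T B n hB hn hrep
  obtain ⟨i, hi, hstab⟩ := exists_stable f T B n hB hn
  have hrep' : Rep f W T (n (i + 1)) := Rep_mono (hn (by omega)) hrep
  obtain ⟨T', hsub, hind, hc⟩ := exists_minimal_rep f W T (n (i + 1)) hrep'
  refine ⟨i, hi, T', hsub, ?_, hc⟩
  intro d hd
  apply hind d
  classical
  -- extend `d` by zero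
  have hconv : ∀ k, ∑ t : {t // t ∈ T}, (if t.1 ∈ T' then d t.1 else 0) * f t.1 k =
      ∑ t ∈ T', d t * f t k := by
    intro k
    rw [Finset.sum_coe_sort T (fun t => (if t ∈ T' then d t else 0) * f t k)]
    simp only [ite_mul, zero_mul]
    rw [← Finset.sum_filter, Finset.filter_mem_eq_inter, Finset.inter_eq_right.mpr hsub]
  have hmem : (fun t : {t // t ∈ T} => if t.1 ∈ T' then d t.1 else 0) ∈ Rel f T (n i) := by
    intro k hk
    rw [hconv k]
    exact hd k hk
  rw [hstab] at hmem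
  intro k hk
  have := hmem k hk
  rwa [hconv k] at this

end Pool.Agent.H187.EG
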