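import Pool.Agent.H5.EG.Spec2

/-!
# MP_98cfca_co, Q1: products of integer powers of `1 + x^k`, `1 - x^k`
-/

set_option autoImplicit false

namespace Pool.Agent.H187.EGP

open Pool.Agent.H5.EG PowerSeries

theorem phi_add (s t : ℕ → ℤ) : phi (fun n => s n + t n) = phi s + phi t := by
  ext n
  simp only [phi, coeff_mk, map_add]
  push_cast
  ring

theorem phi_neg (s : ℕ → ℤ) : phi (fun n => -(s n)) = PowerSeries.C (-1) * phi s := by
  ext n
  rw [coeff_C_mul]
  simp only [phi, coeff_mk]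
  push_cast
  ring

theorem gg_add (s t : ℕ → ℤ) : gg (fun n => s n + t n) = gg s + gg t := by
  ext n
  simp only [gg, coeff_mk, map_add]
  ring

theorem gg_neg (s : ℕ → ℤ) : gg (fun n => -(s n)) = -gg s := by
  ext n
  simp only [gg, coeff_mk, map_neg]

theorem mn_neg (s : ℕ → ℤ) (ρ : ℝ) : mn (fun n => -(s n)) ρ = mn s ρ := by
  unfold mn
  congr 1
  funext x
  rw [phi_neg, ev_C_mul, neg_one_mul, Complex.neg_re, abs_neg]

theorem cont_re {h : PowerSeries ℂ} (hh : Rad h) {ρ : ℝ} (hρ : ρ < 1) :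
    ContinuousOn (fun x => (ev h x).re) (Metric.sphere 0 ρ) := by
  have h1 : ContinuousOn (ev h) (Metric.sphere 0 ρ) := by
    refine (ev_analytic hh).continuousOn.mono ?_
    intro x hx
    rw [mem_sphere_zero_iff_norm] at hx
    rw [mem_ball_zero_iff, hx]
    exact hρ
  exact Complex.continuous_re.comp_continuousOn h1

theorem int_re {h : PowerSeries ℂ} (hh : Rad h) {ρ : ℝ} (h0 : 0 < ρ) (hρ : ρ < 1) :
    CircleIntegrable (fun x => (ev h x).re) 0 ρ :=
  ContinuousOn.circleIntegrable h0.le (cont_re hh hρ)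

theorem int_abs {h : PowerSeries ℂ} (hh : Rad h) {ρ : ℝ} (h0 : 0 < ρ) (hρ : ρ < 1) :
    CircleIntegrable (fun x => |(ev h x).re|) 0 ρ :=
  ContinuousOn.circleIntegrable h0.le (continuous_abs.comp_continuousOn (cont_re hh hρ))

theorem mn_add_le {s t : ℕ → ℤ} (hs : Rad (phi s)) (ht : Rad (phi t)) {ρ : ℝ} (h0 : 0 < ρ)
    (h1 : ρ < 1) : mn (fun n => s n + t n) ρ ≤ mn s ρ + mn t ρ := by
  unfold mn
  rw [phi_add, ← Real.circleAverage_fun_add (int_abs hs h0 h1) (int_abs ht h0 h1)]
  apply Real.circleAverage_mono (int_abs (hs.add ht) h0 h1)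
    ((int_abs hs h0 h1).add (int_abs ht h0 h1))
  intro x hx
  rw [abs_of_pos h0, mem_sphere_zero_iff_norm] at hx
  have hx1 : ‖x‖ < 1 := by rw [hx]; exact h1
  rw [ev_add hs ht hx1, Complex.add_re]
  exact abs_add_le _ _

/-- The constant function `1`. -/
noncomputable def oneF : Fn where
  s := fun _ => 0
  f := 1
  s0 := rfl
  f0 := by simp
  eq := by
    rw [D_one]
    have : gg (fun _ => 0) = 0 := by
      ext n; simp [gg]
    rw [this, zero_mul]
  bd := ⟨0, fun n => by simp⟩
  ch := by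
    refine ⟨0, fun ρ _ _ => ?_⟩
    unfold mn
    have h1 : phi (fun _ => 0) = 0 := by
      ext n; simp [phi]
    have h2 : (fun x : ℂ => |(ev (phi fun _ => 0) x).re|) = fun _ => 0 := by
      funext x
      rw [h1, ev]
      simp
    rw [h2, Real.circleAverage_const]

/-- The product. -/
noncomputable def mulF (h1 : S_exp) (F F' : Fn) : Fn where
  s := fun n => F.s n + F'.s n
  f := F.f * F'.f
  s0 := by rw [F.s0, F'.s0, add_zero]
  f0 := by rw [map_mul, F.f0, F'.f0, one_mul]
  eq := by rw [D_mul, F.eq, F'.eq, gg_add]; ring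
  bd := by
    obtain ⟨H, hH⟩ := F.bd
    obtain ⟨H', hH'⟩ := F'.bd
    refine ⟨H + H', fun n => ?_⟩
    push_cast
    exact (abs_add_le _ _).trans (add_le_add (hH n) (hH' n))
  ch := by
    obtain ⟨H, hH⟩ := F.ch
    obtain ⟨H', hH'⟩ := F'.ch
    refine ⟨H + H', fun ρ h0 hρ => ?_⟩
    exact (mn_add_le (h1 F).2.1 (h1 F').2.1 h0 hρ).trans (add_le_add (hH ρ h0 hρ) (hH' ρ h0 hρ))

/-- The inverse power series. -/
noncomputable def invP (f : PowerSeries ℤ) : PowerSeries ℤ := PowerSeries.invOfUnit f 1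

theorem mul_invP {f : PowerSeries ℤ} (hf : PowerSeries.constantCoeff f = 1) : f * invP f = 1 :=
  PowerSeries.mul_invOfUnit f 1 (by rw [hf]; rfl)

/-- The inverse. -/
noncomputable def invF (F : Fn) : Fn where
  s := fun n => -(F.s n)
  f := invP F.f
  s0 := by rw [F.s0, neg_zero]
  f0 := by
    have h := congrArg (PowerSeries.constantCoeff (R := ℤ)) (mul_invP F.f0)
    rw [map_mul, F.f0, one_mul, map_one] at h
    exact h
  eq := by
    have h := mul_invP F.f0
    have h2 := congrArg D h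
    rw [D_mul, D_one, F.eq] at h2
    -- `gg s * f * g + f * D g = 0`
    have h3 : F.f * D (invP F.f) = - gg F.s := by
      have h4 : gg F.s * F.f * invP F.f = gg F.s := by rw [mul_assoc, h, mul_one]
      rw [h4] at h2
      exact eq_neg_of_add_eq_zero_right h2
    have h5 : invP F.f * (F.f * D (invP F.f)) = D (invP F.f) := by
      rw [← mul_assoc, mul_comm (invP F.f) F.f, h, one_mul]
    rw [← h5, h3, gg_neg]
    ring
  bd := by
    obtain ⟨H, hH⟩ := F.bd
    refine ⟨H, fun n => ?_⟩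
    push_cast
    rw [abs_neg]
    exact hH n
  ch := by
    obtain ⟨H, hH⟩ := F.ch
    refine ⟨H, fun ρ h0 hρ => ?_⟩
    rw [mn_neg]
    exact hH ρ h0 hρ

/-! ### The base case -/

/-- `s` for `1 - x^k`. -/
def sb (k : ℕ) (n : ℕ) : ℤ := if k ∣ n ∧ n ≠ 0 then (k : ℤ) else 0

theorem sb_bd (k n : ℕ) : |(sb k n : ℝ)| ≤ k := by
  unfold sb
  split_ifs
  · simp
  · simp

theorem rad_sb (k : ℕ) : Rad (phi (sb k)) := by
  intro ρ h0 h1
  have h2 : Summable fun n : ℕ => (k : ℝ) * ρ ^ n :=
    (summable_geometric_of_lt_one h0 h1).mul_left _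
  refine Summable.of_nonneg_of_le (fun n => by positivity) (fun n => ?_) h2
  gcongr
  simp only [phi, coeff_mk]
  rcases Nat.eq_zero_or_pos n with rfl | hn
  · simp
  · rw [norm_div, norm_neg, Complex.norm_natCast]
    have h3 : ‖((sb k n : ℤ) : ℂ)‖ = |(sb k n : ℝ)| := by
      rw [Complex.norm_intCast]
    rw [h3]
    have h4 : (1 : ℝ) ≤ n := by exact_mod_cast hn
    calc |(sb k n : ℝ)| / n ≤ |(sb k n : ℝ)| / 1 := by gcongr
      _ = |(sb k n : ℝ)| := div_one _
      _ ≤ k := sb_bd k n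

theorem ev_sb {k : ℕ} (hk : 1 ≤ k) {x : ℂ} (hx : ‖x‖ < 1) :
    ev (phi (sb k)) x = Complex.log (1 - x ^ k) := by
  have hz : ‖x ^ k‖ < 1 := by
    rw [norm_pow]
    exact pow_lt_one₀ (norm_nonneg _) hx (by omega)
  have h1 := (Complex.hasSum_taylorSeries_neg_log hz).neg
  rw [neg_neg] at h1
  have hinj : Function.Injective fun j : ℕ => k * j := fun a b h =>
    Nat.eq_of_mul_eq_mul_left (by omega) h
  have h2 : HasSum (fun n : ℕ => PowerSeries.coeff n (phi (sb k)) * x ^ n)
      (Complex.log (1 - x ^ k)) := by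
    rw [← hinj.hasSum_iff]
    · have h5 : ((fun n : ℕ => PowerSeries.coeff n (phi (sb k)) * x ^ n) ∘ fun j : ℕ => k * j) =
          fun j : ℕ => -((x ^ k) ^ j / (j : ℂ)) := by
        funext j
        simp only [Function.comp_apply, phi, coeff_mk]
        rcases Nat.eq_zero_or_pos j with rfl | hj
        · simp
        · have h3 : sb k (k * j) = k := by
            unfold sb
            rw [if_pos ⟨Dvd.intro j rfl, by positivity⟩]
          rw [h3]
          have hk' : (k : ℂ) ≠ 0 := by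
            have : k ≠ 0 := by omega
            exact_mod_cast this
          have hj' : (j : ℂ) ≠ 0 := by
            have : j ≠ 0 := by omega
            exact_mod_cast this
          push_cast
          rw [pow_mul]
          field_simp
      rw [h5]
      exact h1
    · intro n hn
      have h4 : ¬ k ∣ n := by
        rintro ⟨j, rfl⟩
        exact hn ⟨j, rfl⟩
      simp only [phi, coeff_mk, sb]
      rw [if_neg (fun h => h4 h.1)]
      simp
  exact h2.tsum_eq

theorem eq_base {k : ℕ} (hk : 1 ≤ k) :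
    D (1 - PowerSeries.X ^ k : PowerSeries ℤ) = gg (sb k) * (1 - PowerSeries.X ^ k) := by
  ext n
  rw [coeff_D, mul_sub, mul_one, map_sub, map_sub, PowerSeries.coeff_mul_X_pow',
    PowerSeries.coeff_one, PowerSeries.coeff_X_pow]
  simp only [gg, coeff_mk]
  rcases Nat.lt_trichotomy n k with h | h | h
  · have h1 : sb k n = 0 := by
      unfold sb
      rw [if_neg]
      rintro ⟨h2, h3⟩
      exact absurd (Nat.le_of_dvd (Nat.pos_of_ne_zero h3) h2) (by omega)
    rw [h1, if_neg (by omega : ¬ n = k), if_neg (by omega : ¬ k ≤ n)]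
    rcases Nat.eq_zero_or_pos n with rfl | hn
    · simp
    · rw [if_neg (by omega : ¬ n = 0)]
      simp
  · subst h
    have h1 : sb n n = n := by
      unfold sb
      rw [if_pos ⟨dvd_rfl, by omega⟩]
    have h2 : sb n (n - n) = 0 := by
      unfold sb
      rw [if_neg]
      rintro ⟨_, h3⟩
      omega
    rw [if_pos rfl, if_pos le_rfl, if_neg (by omega : ¬ n = 0), h1, h2]
    push_cast
    ring
  · rw [if_neg (by omega : ¬ n = k), if_pos h.le, if_neg (by omega : ¬ n = 0)]
    have h1 : sb k (n - k) = sb k n := by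
      unfold sb
      have h2 : (k ∣ n - k ∧ n - k ≠ 0) ↔ (k ∣ n ∧ n ≠ 0) := by
        constructor
        · rintro ⟨h3, -⟩
          refine ⟨?_, by omega⟩
          have := Nat.dvd_add h3 (dvd_refl k)
          rwa [Nat.sub_add_cancel h.le] at this
        · rintro ⟨h3, -⟩
          exact ⟨Nat.dvd_sub h3 (dvd_refl k), by omega⟩
      simp only [h2]
    rw [h1]
    ring

/-- `1 - x^k`. -/
noncomputable def baseF (h2 : S_fourier) (k : ℕ) (hk : 1 ≤ k) : Fn where
  s := sb k
  f := 1 - PowerSeries.X ^ k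
  s0 := by simp [sb]
  f0 := by
    rw [map_sub, map_one, map_pow, PowerSeries.constantCoeff_X, zero_pow (by omega), sub_zero]
  eq := eq_base hk
  bd := ⟨k, sb_bd k⟩
  ch := by
    refine ⟨2 * Real.log 2, fun ρ h0 h1 => ?_⟩
    have hm := (h2 (phi (sb k)) ρ (rad_sb k) h0 h1).2
    have hc : (PowerSeries.coeff 0 (phi (sb k))).re = 0 := by
      simp [phi]
    rw [hc] at hm
    have hi := int_re (rad_sb k) h0 h1
    have hcst : CircleIntegrable (fun _ : ℂ => 2 * Real.log 2) 0 ρ :=
      ContinuousOn.circleIntegrable h0.le continuousOn_const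
    have h3 : mn (sb k) ρ ≤
        Real.circleAverage (fun x => 2 * Real.log 2 - (ev (phi (sb k)) x).re) 0 ρ := by
      unfold mn
      apply Real.circleAverage_mono (int_abs (rad_sb k) h0 h1) (hcst.sub hi)
      intro x hx
      rw [abs_of_pos h0, mem_sphere_zero_iff_norm] at hx
      have hx1 : ‖x‖ < 1 := by rw [hx]; exact h1
      have h4 : (ev (phi (sb k)) x).re ≤ Real.log 2 := by
        rw [ev_sb hk hx1, Complex.log_re]
        have h5 : ‖1 - x ^ k‖ ≤ 2 := by
          calc ‖1 - x ^ k‖ ≤ ‖(1 : ℂ)‖ + ‖x ^ k‖ := norm_sub_le _ _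
            _ ≤ 1 + 1 := by
              rw [norm_one, norm_pow]
              gcongr
              exact pow_le_one₀ (norm_nonneg _) hx1.le
            _ = 2 := by norm_num
        rcases (norm_nonneg (1 - x ^ k)).eq_or_lt with h6 | h6
        · rw [← h6, Real.log_zero]
          exact Real.log_nonneg (by norm_num)
        · exact Real.log_le_log h6 h5
      have h7 : 0 ≤ Real.log 2 := Real.log_nonneg (by norm_num)
      show |(ev (phi (sb k)) x).re| ≤ 2 * Real.log 2 - (ev (phi (sb k)) x).re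
      rw [abs_le]
      constructor <;> linarith
    rw [Real.circleAverage_fun_sub hcst hi, hm, Real.circleAverage_const, sub_zero] at h3
    exact h3

/-! ### Values on `(0, 1)` -/

/-- There is a function with the given values. -/
def Has (φ : ℝ → ℝ) : Prop :=
  ∃ F : Fn, ∀ x : ℝ, 0 < x → x < 1 → ev (toC F.f) (x : ℂ) = ((φ x : ℝ) : ℂ)

theorem nrm {x : ℝ} (h0 : 0 < x) (h1 : x < 1) : ‖(x : ℂ)‖ < 1 := by
  rw [Complex.norm_real, Real.norm_of_nonneg h0.le]
  exact h1

theorem Has.congr {φ ψ : ℝ → ℝ} (h : Has φ) (he : ∀ x : ℝ, 0 < x → x < 1 → φ x = ψ x) : Has ψ := by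
  obtain ⟨F, hF⟩ := h
  exact ⟨F, fun x h0 h1 => by rw [hF x h0 h1, he x h0 h1]⟩

theorem has_one : Has fun _ => 1 := by
  refine ⟨oneF, fun x _ _ => ?_⟩
  have : toC oneF.f = 1 := toC_one
  rw [this, ev_one]
  norm_num

theorem Has.mul (h1 : S_exp) {φ ψ : ℝ → ℝ} (h : Has φ) (h' : Has ψ) : Has fun x => φ x * ψ x := by
  obtain ⟨F, hF⟩ := h
  obtain ⟨F', hF'⟩ := h'
  refine ⟨mulF h1 F F', fun x h0 hx => ?_⟩
  have h2 : toC (mulF h1 F F').f = toC F.f * toC F'.f := toC_mul _ _
  rw [h2, ev_mul (h1 F).1 (h1 F').1 (nrm h0 hx), hF x h0 hx, hF' x h0 hx]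
  push_cast
  rfl

theorem Has.inv (h1 : S_exp) {φ : ℝ → ℝ} (h : Has φ) : Has fun x => (φ x)⁻¹ := by
  obtain ⟨F, hF⟩ := h
  refine ⟨invF F, fun x h0 hx => ?_⟩
  have h2 : toC F.f * toC (invF F).f = 1 := by
    rw [← toC_mul, ← toC_one]
    exact congrArg toC (mul_invP F.f0)
  have h3 := ev_mul (h1 F).1 (h1 (invF F)).1 (nrm h0 hx)
  rw [h2, ev_one, hF x h0 hx] at h3
  have h4 : ((φ x : ℝ) : ℂ) ≠ 0 := by
    intro h5
    rw [h5, zero_mul] at h3
    exact one_ne_zero h3
  push_cast
  exact (inv_eq_of_mul_eq_one_right h3.symm).symm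

theorem Has.pow (h1 : S_exp) {φ : ℝ → ℝ} (h : Has φ) (n : ℕ) : Has fun x => φ x ^ n := by
  induction n with
  | zero => exact has_one.congr fun x _ _ => (pow_zero _).symm
  | succ n ih => exact (Has.mul h1 ih h).congr fun x _ _ => (pow_succ _ _).symm

theorem Has.zpow (h1 : S_exp) {φ : ℝ → ℝ} (h : Has φ) (n : ℤ) : Has fun x => φ x ^ n := by
  rcases Int.eq_nat_or_neg n with ⟨m, rfl | rfl⟩
  · exact (Has.pow h1 h m).congr fun x _ _ => (zpow_natCast _ _).symm
  · exact (Has.inv h1 (Has.pow h1 h m)).congr fun x _ _ => by rw [zpow_neg, zpow_natCast]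

theorem has_sub (h2 : S_fourier) {k : ℕ} (hk : 1 ≤ k) : Has fun x => 1 - x ^ k := by
  refine ⟨baseF h2 k hk, fun x h0 h1 => ?_⟩
  have h3 : toC (baseF h2 k hk).f = 1 - PowerSeries.X ^ k := by
    show toC (1 - PowerSeries.X ^ k) = _
    unfold toC
    rw [map_sub, map_one, map_pow, PowerSeries.map_X]
  rw [h3, ev, tsum_eq_sum (s := {0, k})]
  · rw [Finset.sum_pair (by omega)]
    simp only [map_sub, PowerSeries.coeff_one, PowerSeries.coeff_X_pow, if_true]
    rw [if_neg (by omega : ¬ 0 = k), if_neg (by omega : ¬ k = 0)]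
    push_cast
    ring
  · intro n hn
    rw [Finset.mem_insert, Finset.mem_singleton, not_or] at hn
    rw [map_sub, PowerSeries.coeff_one, PowerSeries.coeff_X_pow, if_neg hn.1, if_neg hn.2]
    simp

theorem has_add (h1 : S_exp) (h2 : S_fourier) {k : ℕ} (hk : 1 ≤ k) : Has fun x => 1 + x ^ k := by
  refine (Has.mul h1 (has_sub h2 (k := 2 * k) (by omega)) (Has.inv h1 (has_sub h2 hk))).congr ?_
  intro x h0 hx
  have h3 : x ^ k < 1 := pow_lt_one₀ h0.le hx (by omega)
  have h4 : (1 - x ^ k) ≠ 0 := by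
    intro h5
    linarith
  rw [← div_eq_mul_inv, div_eq_iff h4]
  ring

theorem prod_ (h1 : S_exp) (h2 : S_fourier) : S_prod := by
  intro K a b N r hK hr
  have h3 : ∀ K : Finset ℕ, 0 ∉ K →
      Has fun x => ∏ k ∈ K, (1 + x ^ k) ^ (a k) * (1 - x ^ k) ^ (b k) := by
    intro K
    induction K using Finset.induction_on with
    | empty =>
      intro _
      exact has_one.congr fun x _ _ => by rw [Finset.prod_empty]
    | insert k K hk ih =>
      intro h0
      rw [Finset.mem_insert, not_or] at h0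
      have hk1 : 1 ≤ k := by omega
      refine (Has.mul h1 (Has.mul h1 (Has.zpow h1 (has_add h1 h2 hk1) (a k))
        (Has.zpow h1 (has_sub h2 hk1) (b k))) (ih h0.2)).congr ?_
      intro x _ _
      rw [Finset.prod_insert hk]
  exact Has.mul h1 (h3 K hK) (Has.zpow h1 (has_add h1 h2 hr) N)

end Pool.Agent.H187.EGP
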